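import Pool.Agent.HP25.PD.D
import Pool.Agent.R459.Nbhd

set_option autoImplicit false

/-! Goldbach pairs for all even integers near the values of real polynomials at integers with restricted digits. -/

namespace Pool.Agent.HP25.PD
open Finset
open Pool.Agent.TH872.Sq
open Pool.Agent.TH935.GF (En)

lemma log_room (b d F : ℕ) (hb : 2 ≤ b) (hd : 2 ≤ d) (hF : 1 ≤ F) : ∃ K₀ : ℕ, ∀ k : ℕ, K₀ ≤ k →
    (k : ℝ) ≤ Real.log ((F * b ^ (d * k) : ℕ) : ℝ) ∧ Real.log ((F * b ^ (d * k) : ℕ) : ℝ) ≤ (k : ℝ) ^ 2 := by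
  have hb2 : (2 : ℝ) ≤ b := by exact_mod_cast hb
  have hd2 : (2 : ℝ) ≤ d := by exact_mod_cast hd
  have hF1 : (1 : ℝ) ≤ F := by exact_mod_cast hF
  obtain ⟨K, hK⟩ := exists_nat_ge (Real.log F + d * Real.log b + 1)
  refine ⟨K + 1, fun k hk => ?_⟩
  have hk1 : (1 : ℝ) ≤ k := by exact_mod_cast (by omega : 1 ≤ k)
  have hkK : (K : ℝ) ≤ k := by exact_mod_cast (by omega : K ≤ k)
  have hlb : Real.log 2 ≤ Real.log b := Real.log_le_log (by norm_num) hb2
  have hl2 := Real.log_two_gt_d9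
  have hlF : 0 ≤ Real.log F := Real.log_nonneg hF1
  have e : Real.log ((F * b ^ (d * k) : ℕ) : ℝ) = Real.log F + d * k * Real.log b := by
    push_cast
    rw [Real.log_mul (by positivity) (by positivity), Real.log_pow]
    push_cast
    ring
  rw [e]
  constructor
  · have h1 : (1 : ℝ) ≤ d * Real.log b := by nlinarith
    have h2 : (k : ℝ) * 1 ≤ k * (d * Real.log b) := mul_le_mul_of_nonneg_left h1 (by linarith)
    linarith
  · have h1 : Real.log F + d * Real.log b ≤ k := by linarith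
    have h2 : 0 ≤ d * Real.log b := by nlinarith
    nlinarith

/-- **All the even integers near the values** -/
theorem near_poly (b e B A W U m₀ κ₁ κ₂ : ℕ) (hb : 2 ≤ b) (ε : ℝ) (hε : 0 < ε) (Q : ℕ → Prop)
    (hQ : ∀ m : ℕ, m₀ ≤ m → 2 ∣ m → Pool.Agent.W93.PG.WinP ε A m → Q m) :
    ∃ k₀ : ℕ, ∀ k : ℕ, k₀ ≤ k → ∀ D : ℕ → Finset ℕ, (∀ i < k, D i ⊆ range b ∧ 2 ≤ (D i).card) →
      ∀ (κ : ℝ) (f : ℝ → ℝ), |κ| ≤ κ₁ → 1 ≤ κ₂ * |κ| → Pl e κ f →
      (∀ n ∈ SD b D k, f n ≤ B * (b : ℝ) ^ ((e + 2) * k)) → ∀ P : ℕ → Prop, [DecidablePred P] →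
      (∀ n, P n → ∃ m : ℕ, 0 < m ∧ Even m ∧ |(m : ℝ) - f n| ≤ (k : ℝ) ^ W ∧ ¬ Q m) →
      (((SD b D k).filter P).card : ℝ) ≤ (SD b D k).card / (k : ℝ) ^ U := by
  classical
  obtain ⟨p, hp, hE⟩ := poly_energy b hb e
  obtain ⟨Cf, hCf, hen⟩ := hE κ₁ κ₂
  obtain ⟨N₀, hnear⟩ := Pool.Agent.R459.near_even p A B 1 (W + 1) U m₀ hp ε hε Q hQ
  obtain ⟨K₀, hlog⟩ := log_room b (e + 2) 1 hb (by omega) le_rfl
  obtain ⟨K₁, hK₁⟩ := exists_nat_ge Cf
  refine ⟨N₀ + K₀ + K₁ + 3, fun k hk D hD κ f hκ1 hκ2 hf hfB P _ hP => ?_⟩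
  obtain ⟨N, hN⟩ : ∃ N, N = b ^ ((e + 2) * k) := ⟨_, rfl⟩
  have hkN : k ≤ N := by
    rw [hN]
    calc k ≤ (e + 2) * k := Nat.le_mul_of_pos_left _ (by omega)
      _ ≤ b ^ ((e + 2) * k) := (Nat.lt_pow_self (by omega)).le
  obtain ⟨hl1, hl2⟩ := hlog k (by omega)
  rw [one_mul, ← hN] at hl1 hl2
  have hk3 : (3 : ℝ) ≤ k := by exact_mod_cast (by omega : 3 ≤ k)
  have hKk : Cf ≤ k := hK₁.trans (by exact_mod_cast (by omega : K₁ ≤ k))
  have hfc : Fintype.card {n // n ∈ SD b D k} = (SD b D k).card := Fintype.card_coe _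
  obtain ⟨v, hv⟩ : ∃ v : {n // n ∈ SD b D k} → ℤ, ∀ i, v i = ⌊f (i.1 : ℕ)⌋ := ⟨_, fun _ => rfl⟩
  have hvf : ∀ i, |(v i : ℝ) - f (i.1 : ℕ)| ≤ 1 := by
    intro i
    rw [hv, abs_sub_comm, abs_of_nonneg (by linarith [Int.floor_le (f (i.1 : ℕ))])]
    linarith [Int.lt_floor_add_one (f (i.1 : ℕ))]
  have h1 := hen k D hD κ f hκ1 hκ2 hf v hvf
  rw [← hN] at h1
  have h2 := hnear N (by omega) {n // n ∈ SD b D k} v (fun i => by
      rw [hv, Int.floor_le_iff]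
      have h3 := hfB i.1 i.2
      have h4 : (((B * N : ℤ) : ℤ) : ℝ) = B * (b : ℝ) ^ ((e + 2) * k) := by
        rw [hN]
        push_cast
        ring
      rw [h4]
      linarith) (by
      rw [pow_one]
      refine h1.trans ?_
      apply mul_le_mul_of_nonneg_right _ (by positivity)
      linarith) (univ.filter (fun i => P i.1)) (by
      intro i hi
      rw [mem_filter] at hi
      obtain ⟨m, hm1, hm2, hm3, hm4⟩ := hP i.1 hi.2
      refine ⟨m, hm1, hm2, ?_, hm4⟩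
      push_cast
      have h5 : |(m : ℝ) - v i| ≤ (k : ℝ) ^ W + 1 := by
        have h6 : (m : ℝ) - v i = ((m : ℝ) - f (i.1 : ℕ)) - ((v i : ℝ) - f (i.1 : ℕ)) := by ring
        rw [h6]
        refine (abs_sub _ _).trans ?_
        have := hvf i
        linarith
      refine h5.trans ?_
      have h7 : (k : ℝ) ^ W + 1 ≤ (k : ℝ) ^ (W + 1) := by
        have : (1 : ℝ) ≤ (k : ℝ) ^ W := one_le_pow₀ (by linarith)
        rw [pow_succ]
        nlinarith
      exact h7.trans (pow_le_pow_left₀ (by linarith) hl1 _))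
  rw [hfc] at h2
  have h8 : (((SD b D k).filter P).card : ℝ) ≤ ((univ.filter (fun i : {n // n ∈ SD b D k} => P i.1)).card : ℝ) := by
    apply Nat.cast_le.2
    have e1 : ((SD b D k).filter P) ⊆ ((univ : Finset {n // n ∈ SD b D k}).filter (fun i => P i.1)).image (fun i => i.1) := by
      intro n hn
      rw [mem_filter] at hn
      rw [mem_image]
      exact ⟨⟨n, hn.1⟩, mem_filter.2 ⟨mem_univ _, hn.2⟩, rfl⟩
    exact (card_le_card e1).trans card_image_le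
  refine h8.trans (h2.trans ?_)
  exact div_le_div_of_nonneg_left (Nat.cast_nonneg _) (by positivity) (pow_le_pow_left₀ (by linarith) hl1 U)

/-- the values of a polynomial -/
lemma pl_poly (e : ℕ) (f : Polynomial ℝ) (hf : f.natDegree = e + 2) : Pl e f.leadingCoeff (fun x => f.eval x) := by
  have h := pl_sum e (fun j => f.coeff j) (fun x => f.eval x) (fun x => by
    show f.eval x = _
    rw [Polynomial.eval_eq_sum_range, hf])
  have h2 : f.coeff (e + 2) = f.leadingCoeff := by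
    rw [Polynomial.leadingCoeff, hf]
  rw [← h2]
  exact h

end Pool.Agent.HP25.PD
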