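import Pool.Agent.TH872.Sq.W4

set_option autoImplicit false

/-! Integers with independent random digits: differences of polynomials of arbitrary degree. -/

namespace Pool.Agent.HP25.PD
open Finset
open Pool.Agent.H807R2.Dav
open Pool.Agent.TH872.Sq

/-- `f` is a polynomial of degree at most `e + 2` with real coefficients, and `θ` is the coefficient of degree `e + 2`;
described by the differences `f (a + m y) - f (a' + m y)` -/
def Pl : ℕ → ℝ → (ℝ → ℝ) → Prop
  | 0, θ, f => ∃ θ₁ θ₀ : ℝ, ∀ x, f x = θ * x ^ 2 + θ₁ * x + θ₀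
  | e + 1, θ, f => ∀ a a' m : ℝ, Pl e (((e : ℝ) + 3) * θ * (a - a') * m ^ (e + 2)) (fun y => f (a + m * y) - f (a' + m * y))

lemma expand (N : ℕ) (c : ℕ → ℝ) (a m y : ℝ) : ∑ j ∈ range N, c j * (a + m * y) ^ j =
    ∑ i ∈ range N, (m ^ i * ∑ j ∈ range N, c j * (j.choose i : ℝ) * a ^ (j - i)) * y ^ i := by
  have h1 : ∀ j ∈ range N, c j * (a + m * y) ^ j = ∑ i ∈ range N, m ^ i * (c j * (j.choose i : ℝ) * a ^ (j - i)) * y ^ i := by
    intro j hj
    rw [mem_range] at hj
    rw [add_comm a, add_pow, mul_sum]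
    rw [← sum_subset (range_subset_range.2 (by omega : j + 1 ≤ N))]
    · apply sum_congr rfl
      intro i _
      rw [mul_pow]
      ring
    · intro i _ hi
      rw [mem_range] at hi
      rw [Nat.choose_eq_zero_of_lt (by omega)]
      simp
  rw [sum_congr rfl h1, sum_comm]
  apply sum_congr rfl
  intro i _
  rw [mul_sum, sum_mul]

lemma pl_sum : ∀ (e : ℕ) (c : ℕ → ℝ) (f : ℝ → ℝ), (∀ x, f x = ∑ j ∈ range (e + 3), c j * x ^ j) → Pl e (c (e + 2)) f := by
  intro e
  induction e with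
  | zero =>
    intro c f hf
    refine ⟨c 1, c 0, fun x => ?_⟩
    rw [hf, sum_range_succ, sum_range_succ, sum_range_succ, sum_range_zero]
    ring
  | succ e ih =>
    intro c f hf a a' m
    obtain ⟨T, hT⟩ : ∃ T : ℝ → ℕ → ℝ, ∀ a i, T a i = m ^ i * ∑ j ∈ range (e + 1 + 3), c j * (j.choose i : ℝ) * a ^ (j - i) := ⟨_, fun _ _ => rfl⟩
    have hTe : ∀ a, T a (e + 3) = m ^ (e + 3) * c (e + 3) := by
      intro a
      rw [hT, sum_range_succ, sum_eq_zero]
      · simp
      · intro j hj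
        rw [mem_range] at hj
        rw [Nat.choose_eq_zero_of_lt (by omega)]
        simp
    have hTe2 : ∀ a, T a (e + 2) = m ^ (e + 2) * (c (e + 2) + c (e + 3) * (e + 3) * a) := by
      intro a
      rw [hT, sum_range_succ, sum_range_succ, sum_eq_zero]
      · have h3 : (e + 1 + 2).choose (e + 2) = e + 3 := by
          have : e + 1 + 2 = (e + 2) + 1 := by ring
          rw [this, Nat.choose_succ_self_right]
        rw [h3, Nat.choose_self, Nat.sub_self, pow_zero]
        have h4 : e + 1 + 2 - (e + 2) = 1 := by omega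
        rw [h4, pow_one, zero_add]
        push_cast
        ring_nf
      · intro j hj
        rw [mem_range] at hj
        rw [Nat.choose_eq_zero_of_lt (by omega)]
        simp
    have h5 := ih (fun i => T a i - T a' i) (fun y => f (a + m * y) - f (a' + m * y)) (by
      intro y
      rw [hf, hf, expand, expand]
      simp only [← hT]
      rw [show e + 1 + 3 = (e + 3) + 1 by ring, sum_range_succ, sum_range_succ (fun i => T a' i * y ^ i), hTe, hTe]
      simp only [sub_mul, sum_sub_distrib]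
      ring)
    simp only [hTe2] at h5
    have h6 : m ^ (e + 2) * (c (e + 2) + c (e + 3) * (e + 3) * a) - m ^ (e + 2) * (c (e + 2) + c (e + 3) * (e + 3) * a') =
      ((e : ℝ) + 3) * c (e + 1 + 2) * (a - a') * m ^ (e + 2) := by
      have : e + 1 + 2 = e + 3 := by ring
      rw [this]
      ring
    rw [h6] at h5
    exact h5

lemma pl_smul : ∀ (e : ℕ) (θ t : ℝ) (f : ℝ → ℝ), Pl e θ f → Pl e (t * θ) (fun x => t * f x) := by
  intro e
  induction e with
  | zero =>
    rintro θ t f ⟨θ₁, θ₀, h⟩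
    refine ⟨t * θ₁, t * θ₀, fun x => ?_⟩
    show t * f x = _
    rw [h]
    ring
  | succ e ih =>
    intro θ t f h a a' m
    have h1 := ih _ t _ (h a a' m)
    have h2 : t * (((e : ℝ) + 3) * θ * (a - a') * m ^ (e + 2)) = ((e : ℝ) + 3) * (t * θ) * (a - a') * m ^ (e + 2) := by ring
    rw [h2] at h1
    have e2 : (fun y => t * (f (a + m * y) - f (a' + m * y))) = fun y => t * f (a + m * y) - t * f (a' + m * y) := by
      funext y
      ring
    rw [e2] at h1
    exact h1

/-- the inequality of Cauchy for two independent blocks of digits -/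
lemma cauchy {b : ℕ} (hb : 0 < b) {η : ℝ} {w : ℕ → ℕ → ℝ} (hw : Dig b η w) (i L i' K : ℕ) (F : ℕ → ℕ → ℝ) (B : ℝ) (hB : 0 ≤ B)
    (h : ∀ u u' : ℕ, u < b ^ L → u' < b ^ L → u ≠ u' →
      ‖∑ y ∈ range (b ^ K), ((P b w i' K y : ℝ) : ℂ) * ee (F u y - F u' y)‖ ≤ B) :
    ‖∑ u ∈ range (b ^ L), ((P b w i L u : ℝ) : ℂ) * ∑ y ∈ range (b ^ K), ((P b w i' K y : ℝ) : ℂ) * ee (F u y)‖ ^ 2 ≤
      (1 - η) ^ L + B := by
  have hη1 := eta_le hw
  have hPi := P_nonneg hw i L
  have hPj := P_nonneg hw i' K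
  obtain ⟨G, hG⟩ : ∃ G : ℕ → ℕ → ℝ, ∀ u u', G u u' = ‖∑ y ∈ range (b ^ K), ((P b w i' K y : ℝ) : ℂ) * ee (F u y - F u' y)‖ :=
    ⟨_, fun _ _ => rfl⟩
  have hG1 : ∀ u u', G u u' ≤ 1 := by
    intro u u'
    rw [hG]
    exact norm_avg hb hw i' K _ 1 (fun n => by rw [norm_ee])
  have hG0 : ∀ u u', 0 ≤ G u u' := fun u u' => by rw [hG]; exact norm_nonneg _
  have h1 : ‖∑ u ∈ range (b ^ L), ((P b w i L u : ℝ) : ℂ) * ∑ y ∈ range (b ^ K), ((P b w i' K y : ℝ) : ℂ) * ee (F u y)‖ ^ 2 ≤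
      ∑ u' ∈ range (b ^ L), ∑ u ∈ range (b ^ L), P b w i L u' * P b w i L u * G u u' := by
    have e1 : ∑ u ∈ range (b ^ L), ((P b w i L u : ℝ) : ℂ) * ∑ y ∈ range (b ^ K), ((P b w i' K y : ℝ) : ℂ) * ee (F u y) =
        ∑ y ∈ range (b ^ K), ((P b w i' K y : ℝ) : ℂ) * ∑ u ∈ range (b ^ L), ((P b w i L u : ℝ) : ℂ) * ee (F u y) := by
      simp only [mul_sum]
      rw [sum_comm]
      apply sum_congr rfl
      intro y _
      apply sum_congr rfl
      intro u _
      ring
    have e2 : ‖∑ y ∈ range (b ^ K), ((P b w i' K y : ℝ) : ℂ) * ∑ u ∈ range (b ^ L), ((P b w i L u : ℝ) : ℂ) * ee (F u y)‖ ≤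
        ∑ y ∈ range (b ^ K), P b w i' K y * ‖∑ u ∈ range (b ^ L), ((P b w i L u : ℝ) : ℂ) * ee (F u y)‖ := by
      refine (norm_sum_le _ _).trans (le_of_eq ?_)
      apply sum_congr rfl
      intro y _
      rw [norm_mul, Complex.norm_real, Real.norm_of_nonneg (hPj y)]
    have e3 : (∑ y ∈ range (b ^ K), P b w i' K y * ‖∑ u ∈ range (b ^ L), ((P b w i L u : ℝ) : ℂ) * ee (F u y)‖) ^ 2 ≤
        ∑ y ∈ range (b ^ K), P b w i' K y * ‖∑ u ∈ range (b ^ L), ((P b w i L u : ℝ) : ℂ) * ee (F u y)‖ ^ 2 :=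
      Real.pow_arith_mean_le_arith_mean_pow _ _ _ (fun y _ => hPj y) (P_sum hb hw i' K) (fun y _ => norm_nonneg _) 2
    have e4 : ((∑ y ∈ range (b ^ K), P b w i' K y * ‖∑ u ∈ range (b ^ L), ((P b w i L u : ℝ) : ℂ) * ee (F u y)‖ ^ 2 : ℝ) : ℂ) =
        ∑ u' ∈ range (b ^ L), ∑ u ∈ range (b ^ L), ((P b w i L u' : ℝ) : ℂ) * ((P b w i L u : ℝ) : ℂ) *
          ∑ y ∈ range (b ^ K), ((P b w i' K y : ℝ) : ℂ) * ee (F u y - F u' y) := by
      push_cast
      have f1 : ∀ y : ℕ, ((‖∑ u ∈ range (b ^ L), ((P b w i L u : ℝ) : ℂ) * ee (F u y)‖ : ℂ)) ^ 2 =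
          ∑ u' ∈ range (b ^ L), ∑ u ∈ range (b ^ L), ((P b w i L u' : ℝ) : ℂ) * ((P b w i L u : ℝ) : ℂ) * ee (F u y - F u' y) := by
        intro y
        rw [← Complex.mul_conj', map_sum, sum_mul_sum, sum_comm]
        apply sum_congr rfl
        intro u' _
        apply sum_congr rfl
        intro u _
        rw [map_mul, Complex.conj_ofReal, Pool.Agent.H373R2.T7.conj_ee]
        have f2 : ee (F u y) * ee (-(F u' y)) = ee (F u y - F u' y) := by
          rw [← ee_add]
          congr 1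
        calc ((P b w i L u : ℝ) : ℂ) * ee (F u y) * (((P b w i L u' : ℝ) : ℂ) * ee (-(F u' y))) =
            ((P b w i L u' : ℝ) : ℂ) * ((P b w i L u : ℝ) : ℂ) * (ee (F u y) * ee (-(F u' y))) := by ring
          _ = _ := by rw [f2]
      simp only [f1, mul_sum]
      rw [sum_comm]
      apply sum_congr rfl
      intro u' _
      rw [sum_comm]
      apply sum_congr rfl
      intro u _
      apply sum_congr rfl
      intro y _
      ring
    have hnn : 0 ≤ ∑ y ∈ range (b ^ K), P b w i' K y * ‖∑ u ∈ range (b ^ L), ((P b w i L u : ℝ) : ℂ) * ee (F u y)‖ ^ 2 :=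
      sum_nonneg fun y _ => mul_nonneg (hPj y) (sq_nonneg _)
    rw [e1]
    refine (pow_le_pow_left₀ (norm_nonneg _) e2 2).trans (e3.trans ?_)
    rw [← Real.norm_of_nonneg hnn, ← Complex.norm_real, e4]
    refine (norm_sum_le _ _).trans ?_
    apply sum_le_sum
    intro u' _
    refine (norm_sum_le _ _).trans (le_of_eq ?_)
    apply sum_congr rfl
    intro u _
    rw [norm_mul, norm_mul, Complex.norm_real, Complex.norm_real, Real.norm_of_nonneg (hPi u),
      Real.norm_of_nonneg (hPi u'), ← hG]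
  refine h1.trans ?_
  have h2 : ∀ u' ∈ range (b ^ L), ∑ u ∈ range (b ^ L), P b w i L u' * P b w i L u * G u u' ≤
      P b w i L u' * ((1 - η) ^ L + B) := by
    intro u' hu'
    rw [mem_range] at hu'
    have h3 : ∀ u ∈ range (b ^ L), P b w i L u' * P b w i L u * G u u' ≤
        P b w i L u' * (P b w i L u * B + if u = u' then (1 - η) ^ L else 0) := by
      intro u hu
      rw [mem_range] at hu
      rw [mul_assoc]
      apply mul_le_mul_of_nonneg_left _ (hPi u')
      split_ifs with huu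
      · have h4 : P b w i L u * G u u' ≤ (1 - η) ^ L * 1 :=
          mul_le_mul (P_le hw i L u) (hG1 u u') (hG0 u u') (pow_nonneg (by linarith) _)
        have h5 : 0 ≤ P b w i L u * B := mul_nonneg (hPi u) hB
        linarith
      · rw [add_zero]
        apply mul_le_mul_of_nonneg_left _ (hPi u)
        rw [hG]
        exact h u u' hu hu' huu
    refine (sum_le_sum h3).trans (le_of_eq ?_)
    rw [← mul_sum, sum_add_distrib, ← sum_mul, P_sum hb hw i L, one_mul, sum_ite_eq' (range (b ^ L)) u' (fun _ => (1 - η) ^ L),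
      if_pos (mem_range.2 hu'), add_comm]
  refine (sum_le_sum h2).trans (le_of_eq ?_)
  rw [← sum_mul, P_sum hb hw i L, one_mul]

end Pool.Agent.HP25.PD
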