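import Pool.Agent.HP25.PD.A

set_option autoImplicit false

/-! Integers with independent random digits: the Weyl inequality for polynomials of arbitrary degree. -/

namespace Pool.Agent.HP25.PD
open Finset
open Pool.Agent.H807R2.Dav
open Pool.Agent.TH872.Sq

/-- the Weyl inequality for polynomials of the degree `e + 2` -/
def Weyl (b : ℕ) (η : ℝ) (e : ℕ) : Prop := ∃ s C A : ℕ, ∃ τ : ℝ, 1 ≤ s ∧ 1 ≤ C ∧ 1 ≤ A ∧ 0 ≤ τ ∧ τ < 1 ∧
    ∀ k L : ℕ, 2 ≤ L → C * L ≤ k → ∀ w : ℕ → ℕ → ℝ, Dig b η w → ∀ (i : ℕ) (θ : ℝ) (f : ℝ → ℝ), Pl e θ f →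
    ‖∑ n ∈ range (b ^ k), ((P b w i k n : ℝ) : ℂ) * ee (f n)‖ ^ s ≤ A * τ ^ L ∨
    ∃ Q : ℕ, ∃ a : ℤ, 1 ≤ Q ∧ Q ≤ A * b ^ (C * L) ∧ |θ - a / Q| * (b : ℝ) ^ ((e + 2) * k) ≤ A * (b : ℝ) ^ (C * L)

lemma weyl_base (b : ℕ) (hb : 2 ≤ b) (η : ℝ) (hη : 0 < η) (hη1 : η ≤ 1) : Weyl b η 0 := by
  obtain ⟨s, hs1, h⟩ := weyl_scale b hb η hη hη1
  have hb2 : (2 : ℝ) ≤ b := by exact_mod_cast hb
  have hf : 1 ≤ b.factorial := b.factorial_pos
  have hb1 : 1 ≤ b ^ 2 := Nat.one_le_pow _ _ (by omega)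
  refine ⟨2 * s, 4, 2 * b.factorial * b ^ 2, 1 - η / 2, by omega, by norm_num, by nlinarith, by linarith, by linarith, ?_⟩
  intro k L hL hk w hw i θ f hf'
  obtain ⟨θ₁, θ₀, hfx⟩ := hf'
  have hA1 : (1 : ℝ) ≤ ((2 * b.factorial * b ^ 2 : ℕ) : ℝ) := by
    have : 1 ≤ 2 * b.factorial * b ^ 2 := by nlinarith
    exact_mod_cast this
  rcases h k L hL hk w hw i θ θ₁ with h1 | ⟨Q, a, hQ1, hQ2, hQ3⟩
  · left
    have e1 : ∑ n ∈ range (b ^ k), ((P b w i k n : ℝ) : ℂ) * ee (f n) =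
        ee θ₀ * ∑ n ∈ range (b ^ k), ((P b w i k n : ℝ) : ℂ) * ee (θ * n ^ 2 + θ₁ * n) := by
      rw [mul_sum]
      apply sum_congr rfl
      intro n _
      rw [hfx, ee_add]
      ring
    rw [e1, norm_mul, norm_ee, one_mul]
    refine h1.trans ?_
    have h2 : 0 ≤ (1 - η / 2) ^ L := pow_nonneg (by linarith) _
    nlinarith
  · right
    refine ⟨Q, a, hQ1, ?_, ?_⟩
    · refine hQ2.trans ?_
      have h3 : b ^ (2 * L) ≤ b ^ (4 * L) := Nat.pow_le_pow_right (by omega) (by omega)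
      calc 2 * b.factorial * b ^ (2 * L) ≤ 2 * b.factorial * b ^ (4 * L) := Nat.mul_le_mul_left _ h3
        _ ≤ 2 * b.factorial * b ^ 2 * b ^ (4 * L) := by
            have : 2 * b.factorial ≤ 2 * b.factorial * b ^ 2 := Nat.le_mul_of_pos_right _ (by omega)
            exact Nat.mul_le_mul_right _ this
    · rw [zero_add]
      refine hQ3.trans ?_
      rw [pow_add]
      push_cast
      have h4 : (1 : ℝ) ≤ 2 * b.factorial := by
        have : (1 : ℝ) ≤ b.factorial := by exact_mod_cast hf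
        linarith
      have h5 : (0 : ℝ) ≤ (b : ℝ) ^ (4 * L) * (b : ℝ) ^ 2 := by positivity
      nlinarith

lemma nat_le_pow (b A : ℕ) (hb : 2 ≤ b) : A ≤ b ^ A := (Nat.lt_pow_self (by omega)).le

lemma weyl_step (b : ℕ) (hb : 2 ≤ b) (η : ℝ) (hη : 0 < η) (hη1 : η ≤ 1) (e : ℕ) (hW : Weyl b η e) : Weyl b η (e + 1) := by
  obtain ⟨s, C, A, τ, hs, hC, hA, hτ0, hτ1, h⟩ := hW
  have hb0 : 0 < b := by omega
  have hb2 : (2 : ℝ) ≤ b := by exact_mod_cast hb
  have hbr : (0 : ℝ) < b := by linarith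
  -- constants
  obtain ⟨C₁, hC₁⟩ : ∃ C₁, C₁ = A + C + 2 * (e + 3) := ⟨_, rfl⟩
  obtain ⟨C₂, hC₂⟩ : ∃ C₂, C₂ = 2 * C₁ + 2 + (e + 2) + 2 * C + A ^ 2 + 1 := ⟨_, rfl⟩
  obtain ⟨C₃, hC₃⟩ : ∃ C₃, C₃ = C₁ + (e + 3) * C₂ := ⟨_, rfl⟩
  have hC₂₃ : C₂ ≤ C₃ := by rw [hC₃]; nlinarith
  refine ⟨2 * s, C₃, 2 ^ s * A, max (1 - η) τ, by omega, by omega, ?_, ?_, ?_, ?_⟩
  · have : 1 ≤ 2 ^ s := Nat.one_le_two_pow
    nlinarith
  · exact le_max_of_le_right hτ0
  · exact max_lt (by linarith) hτ1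
  intro k L hL hk w hw i θ f hf
  have hkC₂ : C₂ * L ≤ k := (Nat.mul_le_mul_right L hC₂₃).trans hk
  obtain ⟨L₁, hL₁⟩ : ∃ L₁, L₁ = C₁ * L := ⟨_, rfl⟩
  obtain ⟨J, hJ⟩ : ∃ J, J = 2 * L₁ + 2 := ⟨_, rfl⟩
  by_cases hcase : ∃ r, r ≤ k - C₂ * L ∧ ∀ x0 u u' : ℕ, u < b ^ L → u' < b ^ L → u ≠ u' →
      ‖∑ y ∈ range (b ^ (k - r - L)), ((P b w (i + r + L) (k - r - L) y : ℝ) : ℂ) *
        ee (f (((x0 + b ^ r * u : ℕ) : ℝ) + ((b ^ (r + L) : ℕ) : ℝ) * y) - f (((x0 + b ^ r * u' : ℕ) : ℝ) + ((b ^ (r + L) : ℕ) : ℝ) * y))‖ ^ s ≤ A * τ ^ L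
  · left
    obtain ⟨r, hr, hG⟩ := hcase
    obtain ⟨K, hK⟩ : ∃ K, K = k - r - L := ⟨_, rfl⟩
    rw [← hK] at hG
    have hC₂L : 1 * L ≤ C₂ * L := Nat.mul_le_mul_right _ (by omega)
    have hk' : k = r + (L + K) := by omega
    obtain ⟨Y, hY⟩ : ∃ Y : ℝ, Y = A * τ ^ L := ⟨_, rfl⟩
    have hY0 : 0 ≤ Y := by rw [hY]; positivity
    rw [← hY] at hG
    have hroot : (Y ^ ((s : ℝ)⁻¹)) ^ s = Y := Real.rpow_inv_natCast_pow hY0 (by omega)
    obtain ⟨B, hB⟩ : ∃ B : ℝ, B = Y ^ ((s : ℝ)⁻¹) := ⟨_, rfl⟩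
    have hB0 : 0 ≤ B := by rw [hB]; positivity
    rw [← hB] at hroot
    have hE : ‖∑ n ∈ range (b ^ k), ((P b w i k n : ℝ) : ℂ) * ee (f n)‖ ^ 2 ≤ (1 - η) ^ L + B := by
      have hnn : 0 ≤ (1 - η) ^ L + B := add_nonneg (pow_nonneg (by linarith) _) hB0
      have h1 : ‖∑ n ∈ range (b ^ k), ((P b w i k n : ℝ) : ℂ) * ee (f n)‖ ≤ Real.sqrt ((1 - η) ^ L + B) := by
        rw [hk', ex_split b hb0 w i r (L + K) (fun n => ee (f n))]
        apply norm_avg hb0 hw
        intro x0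
        rw [ex_split b hb0 w (i + r) L K (fun n => ee (f ((x0 + b ^ r * n : ℕ) : ℝ)))]
        apply Real.le_sqrt_of_sq_le
        refine cauchy hb0 hw (i + r) L (i + r + L) K (fun u y => f ((x0 + b ^ r * (u + b ^ L * y) : ℕ) : ℝ)) B hB0 ?_
        intro u u' hu hu' huu
        have h2 := hG x0 u u' hu hu' huu
        have h3 : ∀ v y : ℕ, ((x0 + b ^ r * (v + b ^ L * y) : ℕ) : ℝ) = ((x0 + b ^ r * v : ℕ) : ℝ) + ((b ^ (r + L) : ℕ) : ℝ) * y := by
          intro v y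
          push_cast
          ring
        simp only [h3]
        rw [← hroot] at h2
        exact le_of_pow_le_pow_left₀ (by omega) hB0 h2
      calc ‖∑ n ∈ range (b ^ k), ((P b w i k n : ℝ) : ℂ) * ee (f n)‖ ^ 2 ≤ Real.sqrt ((1 - η) ^ L + B) ^ 2 :=
            pow_le_pow_left₀ (norm_nonneg _) h1 2
        _ = _ := Real.sq_sqrt hnn
    obtain ⟨X, hX⟩ : ∃ X : ℝ, X = (1 - η) ^ L := ⟨_, rfl⟩
    have hX0 : 0 ≤ X := by rw [hX]; exact pow_nonneg (by linarith) _
    have hX1 : X ≤ 1 := by rw [hX]; exact pow_le_one₀ (by linarith) (by linarith)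
    rw [← hX] at hE
    have hmx : X ≤ max (1 - η) τ ^ L := by
      rw [hX]
      exact pow_le_pow_left₀ (by linarith) (le_max_left _ _) _
    have hmy : τ ^ L ≤ max (1 - η) τ ^ L := pow_le_pow_left₀ hτ0 (le_max_right _ _) _
    have hAr : (1 : ℝ) ≤ A := by exact_mod_cast hA
    have hM0 : 0 ≤ max (1 - η) τ ^ L := hX0.trans hmx
    have h4 : (X + B) ^ s ≤ 2 ^ s * (A * max (1 - η) τ ^ L) := by
      have h5 : X + B ≤ 2 * max X B := by
        have := le_max_left X B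
        have := le_max_right X B
        linarith
      refine (pow_le_pow_left₀ (by linarith) h5 s).trans ?_
      rw [mul_pow]
      apply mul_le_mul_of_nonneg_left _ (by positivity)
      rcases le_total X B with h6 | h6
      · rw [max_eq_right h6, hroot, hY]
        exact mul_le_mul_of_nonneg_left hmy (by linarith)
      · rw [max_eq_left h6]
        have h7 : X ^ s ≤ X := by
          calc X ^ s ≤ X ^ 1 := pow_le_pow_of_le_one hX0 hX1 hs
            _ = X := pow_one X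
        nlinarith
    calc ‖∑ n ∈ range (b ^ k), ((P b w i k n : ℝ) : ℂ) * ee (f n)‖ ^ (2 * s) =
        (‖∑ n ∈ range (b ^ k), ((P b w i k n : ℝ) : ℂ) * ee (f n)‖ ^ 2) ^ s := by rw [pow_mul]
      _ ≤ (X + B) ^ s := pow_le_pow_left₀ (sq_nonneg _) hE s
      _ ≤ 2 ^ s * (A * max (1 - η) τ ^ L) := h4
      _ = _ := by push_cast; ring
  · right
    push Not at hcase
    -- rational approximations at all scales
    have key : ∀ l, 0 ≤ l → l ≤ (e + 3) * (k - C₂ * L) → ∃ g : ℕ, 0 < g ∧ g < b ^ L₁ ∧ nn (θ * (b : ℝ) ^ l * g) ≤ 1 / (b : ℝ) ^ J := by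
      intro l _ hl
      obtain ⟨r, hr⟩ : ∃ r, r = l / (e + 3) := ⟨_, rfl⟩
      obtain ⟨j, hj⟩ : ∃ j, j = l % (e + 3) := ⟨_, rfl⟩
      have hlrj : l = (e + 3) * r + j := by rw [hr, hj]; exact (Nat.div_add_mod l (e + 3)).symm
      have hjlt : j < e + 3 := by rw [hj]; exact Nat.mod_lt _ (by omega)
      have hrk : r ≤ k - C₂ * L := by
        rw [hr]
        exact Nat.div_le_of_le_mul hl
      obtain ⟨x0, u, u', hu, hu', huu, hbig⟩ := hcase r hrk
      obtain ⟨K, hK⟩ : ∃ K, K = k - r - L := ⟨_, rfl⟩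
      rw [← hK] at hbig
      have hKL : (C₂ - 1) * L ≤ K := by
        have : (C₂ - 1) * L + L = C₂ * L := by
          have h9 : C₂ = (C₂ - 1) + 1 := by omega
          nth_rewrite 2 [h9]
          ring
        omega
      have hCK : C * L ≤ K := (Nat.mul_le_mul_right L (by omega)).trans hKL
      have hpl := hf ((x0 + b ^ r * u : ℕ) : ℝ) ((x0 + b ^ r * u' : ℕ) : ℝ) ((b ^ (r + L) : ℕ) : ℝ)
      obtain ⟨θ', hθ'⟩ : ∃ θ' : ℝ, θ' = ((e : ℝ) + 3) * θ * (((x0 + b ^ r * u : ℕ) : ℝ) - ((x0 + b ^ r * u' : ℕ) : ℝ)) * ((b ^ (r + L) : ℕ) : ℝ) ^ (e + 2) := ⟨_, rfl⟩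
      rw [← hθ'] at hpl
      rcases h K L hL hCK w hw (i + r + L) θ' _ hpl with h1 | ⟨Q, a, hQ1, hQ2, hQ3⟩
      · exact absurd h1 (not_le.2 hbig)
      · -- the sign and the size of the difference
        obtain ⟨D, σ, hσ, hD0, hDL, hDu⟩ : ∃ (D : ℕ) (σ : ℤ), (σ = 1 ∨ σ = -1) ∧ 0 < D ∧ D < b ^ L ∧ (u : ℝ) - u' = σ * D := by
          rcases lt_or_gt_of_ne huu with hlt | hgt
          · refine ⟨u' - u, -1, Or.inr rfl, by omega, by omega, ?_⟩
            rw [Nat.cast_sub hlt.le]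
            push_cast
            ring
          · refine ⟨u - u', 1, Or.inl rfl, by omega, by omega, ?_⟩
            rw [Nat.cast_sub hgt.le]
            push_cast
            ring
        have hσ2 : (σ : ℝ) * σ = 1 := by
          rcases hσ with rfl | rfl <;> norm_num
        have hσabs : |(σ : ℝ)| = 1 := by
          rcases hσ with rfl | rfl <;> norm_num
        refine ⟨Q * ((e + 3) * (D * b ^ (L * (e + 2)))), ?_, ?_, ?_⟩
        · have : 0 < b ^ (L * (e + 2)) := by positivity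
          positivity
        · -- size
          have h2 : Q * ((e + 3) * (D * b ^ (L * (e + 2)))) < (b ^ A * b ^ (C * L)) * (b ^ (e + 3) * (b ^ L * b ^ (L * (e + 2)))) := by
            have q1 : Q ≤ b ^ A * b ^ (C * L) := hQ2.trans (Nat.mul_le_mul_right _ (nat_le_pow b A hb))
            have q2 : e + 3 ≤ b ^ (e + 3) := nat_le_pow b (e + 3) hb
            have q3 : D * b ^ (L * (e + 2)) < b ^ L * b ^ (L * (e + 2)) := Nat.mul_lt_mul_of_pos_right hDL (by positivity)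
            calc Q * ((e + 3) * (D * b ^ (L * (e + 2)))) ≤ (b ^ A * b ^ (C * L)) * ((e + 3) * (D * b ^ (L * (e + 2)))) := Nat.mul_le_mul_right _ q1
              _ ≤ (b ^ A * b ^ (C * L)) * (b ^ (e + 3) * (D * b ^ (L * (e + 2)))) := Nat.mul_le_mul_left _ (Nat.mul_le_mul_right _ q2)
              _ < _ := by
                  apply Nat.mul_lt_mul_of_pos_left _ (by positivity)
                  exact Nat.mul_lt_mul_of_pos_left q3 (by positivity)
          refine lt_of_lt_of_le h2 ?_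
          rw [← pow_add, ← pow_add, ← pow_add, ← pow_add]
          apply Nat.pow_le_pow_right hb0
          rw [hL₁, hC₁]
          have q4 : A ≤ A * L := Nat.le_mul_of_pos_right _ (by omega)
          have q5 : e + 3 ≤ (e + 3) * L := Nat.le_mul_of_pos_right _ (by omega)
          have q6 : (A + C + 2 * (e + 3)) * L = A * L + C * L + (e + 3) * L + (e + 3) * L := by ring
          have q7 : L + L * (e + 2) = (e + 3) * L := by ring
          rw [q6]
          omega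
        · -- the distance to the nearest integer
          have hQr : (0 : ℝ) < Q := by exact_mod_cast hQ1
          have e1 : θ * (b : ℝ) ^ l * ((Q * ((e + 3) * (D * b ^ (L * (e + 2)))) : ℕ) : ℝ) - ((σ * a * b ^ j : ℤ) : ℝ) =
              (b : ℝ) ^ j * σ * Q * (θ' - a / Q) := by
            have e2 : θ' = ((e : ℝ) + 3) * θ * ((b : ℝ) ^ r * (σ * D)) * ((b : ℝ) ^ (r + L)) ^ (e + 2) := by
              rw [hθ', ← hDu]
              push_cast
              ring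
            have e3 : (b : ℝ) ^ j * σ * Q * (θ' - a / Q) = (b : ℝ) ^ j * σ * Q * θ' - σ * a * (b : ℝ) ^ j := by
              field_simp
            rw [e3, e2, hlrj]
            push_cast
            have e4 : (b : ℝ) ^ j * σ * Q * (((e : ℝ) + 3) * θ * ((b : ℝ) ^ r * (σ * D)) * ((b : ℝ) ^ (r + L)) ^ (e + 2)) =
                (σ * σ) * ((b : ℝ) ^ j * Q * (((e : ℝ) + 3) * θ * ((b : ℝ) ^ r * D) * ((b : ℝ) ^ (r + L)) ^ (e + 2))) := by ring
            rw [e4, hσ2]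
            ring
          refine (nn_le _ (σ * a * b ^ j)).trans ?_
          rw [e1, abs_mul, abs_mul, abs_mul, hσabs, mul_one, abs_of_pos (by positivity : (0 : ℝ) < (b : ℝ) ^ j), abs_of_pos hQr]
          rw [le_div_iff₀ (by positivity)]
          have hQ2r : (Q : ℝ) ≤ A * (b : ℝ) ^ (C * L) := by exact_mod_cast hQ2
          have hA2 : ((A : ℝ)) ^ 2 ≤ (b : ℝ) ^ (A ^ 2) := by exact_mod_cast nat_le_pow b (A ^ 2) hb
          have hexp : j + J + 2 * (C * L) + A ^ 2 ≤ (e + 2) * K := by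
            have q6 : (C₂ - 1) * L = (2 * C₁ + 2 + (e + 2) + 2 * C + A ^ 2) * L := by
              congr 1
              omega
            have q7 : A ^ 2 ≤ A ^ 2 * L := Nat.le_mul_of_pos_right _ (by omega)
            have q8 : (e + 2) ≤ (e + 2) * L := Nat.le_mul_of_pos_right _ (by omega)
            have q9 : K ≤ (e + 2) * K := Nat.le_mul_of_pos_left _ (by omega)
            have q10 : (2 * C₁ + 2 + (e + 2) + 2 * C + A ^ 2) * L = 2 * (C₁ * L) + 2 * L + (e + 2) * L + 2 * (C * L) + A ^ 2 * L := by ring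
            rw [q6, q10] at hKL
            rw [hJ, hL₁]
            omega
          have hfin : (b : ℝ) ^ j * Q * |θ' - a / Q| * (b : ℝ) ^ J * (b : ℝ) ^ ((e + 2) * K) ≤ (b : ℝ) ^ ((e + 2) * K) := by
            calc (b : ℝ) ^ j * Q * |θ' - a / Q| * (b : ℝ) ^ J * (b : ℝ) ^ ((e + 2) * K) =
                (b : ℝ) ^ j * (b : ℝ) ^ J * (Q * (|θ' - a / Q| * (b : ℝ) ^ ((e + 2) * K))) := by ring
              _ ≤ (b : ℝ) ^ j * (b : ℝ) ^ J * ((A * (b : ℝ) ^ (C * L)) * (A * (b : ℝ) ^ (C * L))) := by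
                  apply mul_le_mul_of_nonneg_left _ (by positivity)
                  exact mul_le_mul hQ2r hQ3 (by positivity) (by positivity)
              _ = (b : ℝ) ^ (j + J + 2 * (C * L)) * (A : ℝ) ^ 2 := by
                  rw [pow_add, pow_add, two_mul, pow_add]
                  ring
              _ ≤ (b : ℝ) ^ (j + J + 2 * (C * L)) * (b : ℝ) ^ (A ^ 2) := mul_le_mul_of_nonneg_left hA2 (by positivity)
              _ = (b : ℝ) ^ (j + J + 2 * (C * L) + A ^ 2) := by rw [← pow_add]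
              _ ≤ _ := pow_le_pow_right₀ (by linarith) hexp
          have hpos : (0 : ℝ) < (b : ℝ) ^ ((e + 2) * K) := by positivity
          have : ((b : ℝ) ^ j * Q * |θ' - a / Q| * (b : ℝ) ^ J) * (b : ℝ) ^ ((e + 2) * K) ≤ 1 * (b : ℝ) ^ ((e + 2) * K) := by
            rw [one_mul]
            exact hfin
          exact le_of_mul_le_mul_right this hpos
    obtain ⟨Q, a, hQ1, hQ2, hQ3⟩ := dichotomy b L₁ J hb (by omega) 0 ((e + 3) * (k - C₂ * L)) (Nat.zero_le _) θ key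
    refine ⟨Q, a, hQ1, ?_, ?_⟩
    · refine hQ2.trans ?_
      calc b ^ (L₁ + 0) ≤ b ^ (C₃ * L) := by
            apply Nat.pow_le_pow_right hb0
            rw [hL₁, add_zero]
            exact Nat.mul_le_mul_right _ (by omega)
        _ ≤ 2 ^ s * A * b ^ (C₃ * L) := by
            apply Nat.le_mul_of_pos_left
            positivity
    · have e5 : (e + 1 + 2) * k = (e + 3) * (k - C₂ * L) + (e + 3) * (C₂ * L) := by
        rw [← mul_add, Nat.sub_add_cancel hkC₂]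
      rw [e5, pow_add, ← mul_assoc]
      have h6 : |θ - a / Q| * (b : ℝ) ^ ((e + 3) * (k - C₂ * L)) ≤ (b : ℝ) ^ L₁ := by
        refine le_trans ?_ hQ3
        apply mul_le_mul_of_nonneg_left _ (abs_nonneg _)
        exact pow_le_pow_right₀ (by linarith) (by omega)
      calc |θ - a / Q| * (b : ℝ) ^ ((e + 3) * (k - C₂ * L)) * (b : ℝ) ^ ((e + 3) * (C₂ * L)) ≤
          (b : ℝ) ^ L₁ * (b : ℝ) ^ ((e + 3) * (C₂ * L)) := mul_le_mul_of_nonneg_right h6 (by positivity)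
        _ = (b : ℝ) ^ (C₃ * L) := by
            rw [← pow_add, hL₁, hC₃]
            congr 1
            ring
        _ ≤ ((2 ^ s * A : ℕ) : ℝ) * (b : ℝ) ^ (C₃ * L) := by
            have : (1 : ℝ) ≤ ((2 ^ s * A : ℕ) : ℝ) := by
              have : 1 ≤ 2 ^ s * A := Nat.mul_pos (by positivity) (by omega)
              exact_mod_cast this
            have h7 : (0 : ℝ) ≤ (b : ℝ) ^ (C₃ * L) := by positivity
            nlinarith

/-- **The Weyl inequality** for polynomials of arbitrary degree `e + 2 ≥ 2` of integers with independent random digits -/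
theorem weyl_all (b : ℕ) (hb : 2 ≤ b) (η : ℝ) (hη : 0 < η) (hη1 : η ≤ 1) (e : ℕ) : Weyl b η e := by
  induction e with
  | zero => exact weyl_base b hb η hη hη1
  | succ e ih => exact weyl_step b hb η hη hη1 e ih

end Pool.Agent.HP25.PD
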