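import Pool.Agent.HP25.PD.B

set_option autoImplicit false

/-! Moments of the exponential sums over the values of real polynomials at integers with independent random digits. -/

namespace Pool.Agent.HP25.PD
open Finset
open Pool.Agent.H807R2.Dav
open Pool.Agent.TH872.Sq

open Classical in
lemma count_near (M : ℕ) (κ y R : ℝ) (κ₂ : ℕ) (hκ : 1 ≤ κ₂ * |κ|) (hR : 0 ≤ R) :
    (((range M).filter (fun t : ℕ => |(t : ℝ) * κ - y| ≤ R)).card : ℝ) ≤ 2 * R * κ₂ + 1 := by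
  obtain ⟨S, hS⟩ : ∃ S, S = (range M).filter (fun t : ℕ => |(t : ℝ) * κ - y| ≤ R) := ⟨_, rfl⟩
  rw [← hS]
  have hnn : 0 ≤ 2 * R * κ₂ := by positivity
  rcases S.eq_empty_or_nonempty with h | h
  · rw [h, card_empty, Nat.cast_zero]
    linarith
  · obtain ⟨t₀, ht₀, hmin⟩ := S.exists_min_image (fun t => t) h
    have hsub : S ⊆ Icc t₀ (t₀ + ⌊2 * R * κ₂⌋₊) := by
      intro t ht
      have h1 : t₀ ≤ t := hmin t ht
      rw [mem_Icc]
      refine ⟨h1, ?_⟩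
      have h2 : |(t : ℝ) * κ - y| ≤ R := by rw [hS, mem_filter] at ht; exact ht.2
      have h3 : |(t₀ : ℝ) * κ - y| ≤ R := by rw [hS, mem_filter] at ht₀; exact ht₀.2
      have h4 : ((t : ℝ) - t₀) * |κ| ≤ 2 * R := by
        have h5 : (0 : ℝ) ≤ (t : ℝ) - t₀ := by
          have : (t₀ : ℝ) ≤ t := by exact_mod_cast h1
          linarith
        calc ((t : ℝ) - t₀) * |κ| = |((t : ℝ) * κ - y) - ((t₀ : ℝ) * κ - y)| := by
              rw [← abs_of_nonneg h5, ← abs_mul]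
              congr 1
              ring
          _ ≤ |(t : ℝ) * κ - y| + |(t₀ : ℝ) * κ - y| := abs_sub _ _
          _ ≤ 2 * R := by linarith
      have h6 : ((t : ℝ) - t₀) ≤ 2 * R * κ₂ := by
        have h7 : (0 : ℝ) ≤ (t : ℝ) - t₀ := by
          have : (t₀ : ℝ) ≤ t := by exact_mod_cast h1
          linarith
        calc ((t : ℝ) - t₀) = ((t : ℝ) - t₀) * 1 := (mul_one _).symm
          _ ≤ ((t : ℝ) - t₀) * (κ₂ * |κ|) := mul_le_mul_of_nonneg_left hκ h7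
          _ = (((t : ℝ) - t₀) * |κ|) * κ₂ := by ring
          _ ≤ 2 * R * κ₂ := mul_le_mul_of_nonneg_right h4 (Nat.cast_nonneg _)
      have h8 : t - t₀ ≤ ⌊2 * R * κ₂⌋₊ := by
        apply Nat.le_floor
        rw [Nat.cast_sub h1]
        exact h6
      omega
    have h9 := card_le_card hsub
    rw [Nat.card_Icc] at h9
    have h10 : (S.card : ℝ) ≤ ((⌊2 * R * κ₂⌋₊ + 1 : ℕ) : ℝ) := by
      apply Nat.cast_le.2
      omega
    refine h10.trans ?_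
    push_cast
    linarith [Nat.floor_le hnn]

/-- the frequencies `t / M` for which `κ t / M` is close to a rational number -/
def Mj (N M : ℕ) (κ : ℝ) (Qm : ℕ) (t : ℕ) : Prop := ∃ Q : ℕ, ∃ a : ℤ, 1 ≤ Q ∧ Q ≤ Qm ∧
  |(t : ℝ) / M * κ - a / Q| * N ≤ Qm

open Classical in
lemma count_mj (N M F Qm κ₁ κ₂ : ℕ) (κ : ℝ) (hN : 1 ≤ N) (hM1 : 1 ≤ M) (hM : M ≤ F * N) (hQm : 1 ≤ Qm) (hF : 1 ≤ F)
    (hκ1 : |κ| ≤ κ₁) (hκ2 : 1 ≤ κ₂ * |κ|) :
    (((range M).filter (Mj N M κ Qm)).card : ℝ) ≤ ((9 * (κ₁ + 1) * F * κ₂ * Qm ^ 4 : ℕ) : ℝ) := by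
  have hNr : (1 : ℝ) ≤ N := by exact_mod_cast hN
  have hMr : (1 : ℝ) ≤ M := by exact_mod_cast hM1
  have hQmr : (1 : ℝ) ≤ Qm := by exact_mod_cast hQm
  have hFr : (1 : ℝ) ≤ F := by exact_mod_cast hF
  have hMFN : (M : ℝ) ≤ F * N := by exact_mod_cast hM
  have hκ₂ : 1 ≤ κ₂ := by
    rcases Nat.eq_zero_or_pos κ₂ with h | h
    · rw [h, Nat.cast_zero, zero_mul] at hκ2
      linarith
    · exact h
  obtain ⟨Z, hZ⟩ : ∃ Z : ℕ, Z = Qm * (κ₁ + Qm) := ⟨_, rfl⟩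
  have h1 : (range M).filter (Mj N M κ Qm) ⊆ (Icc 1 Qm).biUnion (fun Q => (Icc (-(Z : ℤ)) Z).biUnion
      (fun a => (range M).filter (fun t : ℕ => |(t : ℝ) * κ - a * M / Q| ≤ F * Qm))) := by
    intro t ht
    rw [mem_filter, mem_range] at ht
    obtain ⟨htM, Q, a, hQ1, hQ2, hQ⟩ := ht
    have hQr : (0 : ℝ) < Q := by exact_mod_cast hQ1
    have hQle : (Q : ℝ) ≤ Qm := by exact_mod_cast hQ2
    have htMr : (t : ℝ) / M ≤ 1 := by
      rw [div_le_one (by linarith)]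
      exact_mod_cast htM.le
    have hd : |(t : ℝ) / M * κ - a / Q| ≤ Qm := by
      have := abs_nonneg ((t : ℝ) / M * κ - a / Q)
      nlinarith
    rw [mem_biUnion]
    refine ⟨Q, mem_Icc.2 ⟨hQ1, hQ2⟩, ?_⟩
    rw [mem_biUnion]
    refine ⟨a, ?_, ?_⟩
    · rw [mem_Icc, ← abs_le]
      have h2 : |(a : ℝ)| ≤ Z := by
        have h3 : |(a : ℝ)| = |(a : ℝ) / Q| * Q := by
          rw [abs_div, abs_of_pos hQr, div_mul_cancel₀ _ hQr.ne']
        have h4 : |(a : ℝ) / Q| ≤ κ₁ + Qm := by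
          have h5 : |(a : ℝ) / Q| ≤ |(t : ℝ) / M * κ| + |(t : ℝ) / M * κ - a / Q| := by
            have := abs_sub_abs_le_abs_sub ((a : ℝ) / Q) ((t : ℝ) / M * κ)
            rw [abs_sub_comm] at this
            linarith
          have h6 : |(t : ℝ) / M * κ| ≤ κ₁ := by
            rw [abs_mul, abs_of_nonneg (by positivity)]
            calc (t : ℝ) / M * |κ| ≤ 1 * |κ| := mul_le_mul_of_nonneg_right htMr (abs_nonneg _)
              _ ≤ κ₁ := by rw [one_mul]; exact hκ1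
          linarith
        rw [h3, hZ]
        push_cast
        calc |(a : ℝ) / Q| * Q ≤ (κ₁ + Qm) * Qm := mul_le_mul h4 hQle hQr.le (by positivity)
          _ = _ := by ring
      exact_mod_cast h2
    · rw [mem_filter, mem_range]
      refine ⟨htM, ?_⟩
      have h3 : (t : ℝ) * κ - a * M / Q = ((t : ℝ) / M * κ - a / Q) * M := by field_simp
      rw [h3, abs_mul, abs_of_pos (by linarith : (0 : ℝ) < M)]
      calc |(t : ℝ) / M * κ - a / Q| * M ≤ |(t : ℝ) / M * κ - a / Q| * (F * N) := mul_le_mul_of_nonneg_left hMFN (abs_nonneg _)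
        _ = F * (|(t : ℝ) / M * κ - a / Q| * N) := by ring
        _ ≤ F * Qm := mul_le_mul_of_nonneg_left hQ (by linarith)
  have h2 : (((range M).filter (Mj N M κ Qm)).card : ℝ) ≤ ∑ Q ∈ Icc 1 Qm, ∑ _a ∈ Icc (-(Z : ℤ)) Z, (2 * (F * Qm) * κ₂ + 1 : ℝ) := by
    have h3 : (((range M).filter (Mj N M κ Qm)).card : ℝ) ≤ ∑ Q ∈ Icc 1 Qm, ∑ a ∈ Icc (-(Z : ℤ)) Z,
        (((range M).filter (fun t : ℕ => |(t : ℝ) * κ - a * M / Q| ≤ F * Qm)).card : ℝ) := by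
      have h4 := (card_le_card h1).trans card_biUnion_le
      have h5 : ((range M).filter (Mj N M κ Qm)).card ≤ ∑ Q ∈ Icc 1 Qm, ∑ a ∈ Icc (-(Z : ℤ)) Z,
        ((range M).filter (fun t : ℕ => |(t : ℝ) * κ - a * M / Q| ≤ F * Qm)).card :=
        h4.trans (sum_le_sum fun Q _ => card_biUnion_le)
      exact_mod_cast h5
    refine h3.trans (sum_le_sum fun Q _ => sum_le_sum fun a _ => ?_)
    exact count_near M κ _ (F * Qm) κ₂ hκ2 (by positivity)
  refine h2.trans ?_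
  rw [sum_const, sum_const, Nat.card_Icc, Int.card_Icc, nsmul_eq_mul, nsmul_eq_mul]
  have h6 : ((Z : ℤ) + 1 - -(Z : ℤ)).toNat = 2 * Z + 1 := by omega
  rw [h6, Nat.add_sub_cancel]
  have hκ₁r : (0 : ℝ) ≤ κ₁ := Nat.cast_nonneg _
  have hκ₂r : (1 : ℝ) ≤ κ₂ := by exact_mod_cast hκ₂
  have h7 : ((2 * Z + 1 : ℕ) : ℝ) ≤ 3 * (κ₁ + 1) * Qm ^ 2 := by
    rw [hZ]
    push_cast
    nlinarith [mul_nonneg hκ₁r (by linarith : (0 : ℝ) ≤ Qm), mul_nonneg hκ₁r (by nlinarith : (0 : ℝ) ≤ (Qm : ℝ) ^ 2 - Qm)]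
  have h8 : (2 * (F * Qm) * κ₂ + 1 : ℝ) ≤ 3 * (F * Qm * κ₂) := by
    have : (1 : ℝ) ≤ F * Qm * κ₂ := by
      have h9 : (1 : ℝ) ≤ F * Qm := by nlinarith
      nlinarith
    linarith
  calc (Qm : ℝ) * (((2 * Z + 1 : ℕ) : ℝ) * (2 * (F * Qm) * κ₂ + 1)) ≤ Qm * ((3 * (κ₁ + 1) * Qm ^ 2) * (3 * (F * Qm * κ₂))) := by
        apply mul_le_mul_of_nonneg_left _ (by linarith)
        exact mul_le_mul h7 h8 (by positivity) (by positivity)
    _ = _ := by push_cast; ring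

/-- **Moments.** The exponent `p` depends on the base, on the law of the digits and on the degree alone. -/
theorem moment (b : ℕ) (hb : 2 ≤ b) (η : ℝ) (hη : 0 < η) (e : ℕ) : ∃ p : ℕ, 1 ≤ p ∧ ∀ F κ₁ κ₂ : ℕ, 1 ≤ F →
    ∃ Cf : ℝ, 0 < Cf ∧ ∀ k M : ℕ, b ^ ((e + 2) * k) ≤ M → M ≤ F * b ^ ((e + 2) * k) →
    ∀ (w : ℕ → ℕ → ℝ), Dig b η w → ∀ (i : ℕ) (κ : ℝ) (f : ℝ → ℝ), |κ| ≤ κ₁ → 1 ≤ κ₂ * |κ| → Pl e κ f →
    ∑ t ∈ range M, ‖∑ n ∈ range (b ^ k), ((P b w i k n : ℝ) : ℂ) * ee ((t : ℝ) / M * f n)‖ ^ (2 * p) ≤ Cf := by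
  classical
  by_cases hη1 : η ≤ 1
  swap
  · exact ⟨1, le_rfl, fun F κ₁ κ₂ _ => ⟨1, one_pos, fun k M _ _ w hw => absurd (eta_le hw) hη1⟩⟩
  have hb2 : (2 : ℝ) ≤ b := by exact_mod_cast hb
  have hb0 : (0 : ℝ) < b := by linarith
  obtain ⟨s, C, A, τ, hs1, hC1, hA1, hτ0, hτ1, hweyl⟩ := weyl_all b hb η hη hη1 e
  obtain ⟨T, hT⟩ : ∃ T, T = 4 * C + (e + 2) * C + 1 := ⟨_, rfl⟩
  obtain ⟨q₀, hq₀⟩ := exists_pow_lt_of_lt_one (show 0 < 1 / (b : ℝ) ^ T by positivity) hτ1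
  obtain ⟨q, hq⟩ : ∃ q, q = q₀ + 1 := ⟨_, rfl⟩
  obtain ⟨y, hy⟩ : ∃ y, y = τ ^ q := ⟨_, rfl⟩
  have hy0 : 0 ≤ y := by rw [hy]; exact pow_nonneg hτ0 _
  have hyb : y ≤ 1 / (b : ℝ) ^ T := by
    rw [hy, hq]
    exact (pow_le_pow_of_le_one hτ0 hτ1.le (by omega)).trans hq₀.le
  have hy1 : y ≤ 1 := hyb.trans (by
    rw [div_le_one (by positivity)]
    exact one_le_pow₀ (by linarith))
  obtain ⟨A', hA'⟩ : ∃ A' : ℕ, A' = A ^ (2 * q) := ⟨_, rfl⟩
  have hA'1 : 1 ≤ A' := by rw [hA']; exact Nat.one_le_pow _ _ (by omega)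
  have hA'r : (1 : ℝ) ≤ A' := by exact_mod_cast hA'1
  refine ⟨s * q, by rw [hq]; nlinarith, fun F κ₁ κ₂ hF => ?_⟩
  obtain ⟨C₁, hC₁⟩ : ∃ C₁ : ℕ, C₁ = 9 * (κ₁ + 1) * F * κ₂ * A ^ 4 := ⟨_, rfl⟩
  refine ⟨(C₁ * b ^ (8 * C) + 2 * A' * C₁ * b ^ (4 * C) + A' * F * b ^ ((e + 2) * C) + F * b ^ ((e + 2) * (2 * C)) : ℕ), ?_,
    fun k M hM1 hM2 w hw i κ f hκ1 hκ2 hf => ?_⟩
  · have : 0 < F * b ^ ((e + 2) * (2 * C)) := by positivity
    have h2 : 0 < C₁ * b ^ (8 * C) + 2 * A' * C₁ * b ^ (4 * C) + A' * F * b ^ ((e + 2) * C) + F * b ^ ((e + 2) * (2 * C)) := by omega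
    exact_mod_cast h2
  have hN1 : 1 ≤ b ^ ((e + 2) * k) := Nat.one_le_pow _ _ (by omega)
  have hM0 : 1 ≤ M := le_trans hN1 hM1
  have hMr : (0 : ℝ) < M := by exact_mod_cast hM0
  obtain ⟨W, hW⟩ : ∃ W : ℕ → ℝ, ∀ t, W t = ‖∑ n ∈ range (b ^ k), ((P b w i k n : ℝ) : ℂ) * ee ((t : ℝ) / M * f n)‖ :=
    ⟨_, fun _ => rfl⟩
  simp only [← hW]
  have hW0 : ∀ t, 0 ≤ W t := fun t => by rw [hW]; exact norm_nonneg _
  have hW1 : ∀ t, W t ≤ 1 := by
    intro t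
    rw [hW]
    exact norm_avg (by omega) hw i k _ 1 (fun n => by rw [norm_ee])
  rcases Nat.lt_or_ge k (2 * C) with hk | hk
  · calc ∑ t ∈ range M, W t ^ (2 * (s * q)) ≤ ∑ t ∈ range M, (1 : ℝ) := sum_le_sum fun t _ => pow_le_one₀ (hW0 t) (hW1 t)
      _ = M := by rw [sum_const, card_range, nsmul_eq_mul, mul_one]
      _ ≤ _ := by
          have h1 : M ≤ F * b ^ ((e + 2) * (2 * C)) :=
            hM2.trans (Nat.mul_le_mul_left _ (Nat.pow_le_pow_right (by omega) (Nat.mul_le_mul_left _ hk.le)))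
          have h2 : M ≤ C₁ * b ^ (8 * C) + 2 * A' * C₁ * b ^ (4 * C) + A' * F * b ^ ((e + 2) * C) + F * b ^ ((e + 2) * (2 * C)) := by omega
          exact_mod_cast h2
  -- the major frequencies
  obtain ⟨Mm, hMm⟩ : ∃ Mm : ℕ → ℕ → Prop, ∀ L, Mm L = Mj (b ^ ((e + 2) * k)) M κ (A * b ^ (C * L)) := ⟨fun L => _, fun _ => rfl⟩
  have hcnt : ∀ L, (((range M).filter (Mm L)).card : ℝ) ≤ C₁ * b ^ (4 * C * L) := by
    intro L
    have h0 : 1 ≤ A * b ^ (C * L) := Nat.mul_pos (by omega) (Nat.one_le_pow _ _ (by omega))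
    have h1 := count_mj (b ^ ((e + 2) * k)) M F (A * b ^ (C * L)) κ₁ κ₂ κ hN1 hM0 hM2 h0 hF hκ1 hκ2
    rw [← hMm] at h1
    refine (le_trans (le_of_eq ?_) h1).trans (le_of_eq ?_)
    · congr!
    · rw [hC₁]
      push_cast
      rw [mul_pow, ← pow_mul]
      ring_nf
  have hmin : ∀ t L, 2 ≤ L → C * L ≤ k → ¬ Mm L t → W t ^ (2 * (s * q)) ≤ A' * y ^ L := by
    intro t L hL1 hL2 hnot
    rcases hweyl k L hL1 hL2 w hw i ((t : ℝ) / M * κ) _ (pl_smul e κ ((t : ℝ) / M) f hf) with h | ⟨Q, a, hQ1, hQ2, hQ3⟩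
    · rw [← hW] at h
      calc W t ^ (2 * (s * q)) = (W t ^ s) ^ (2 * q) := by rw [← pow_mul]; congr 1; ring
        _ ≤ (A * τ ^ L) ^ (2 * q) := pow_le_pow_left₀ (pow_nonneg (hW0 t) _) h _
        _ = A' * (y ^ L * y ^ L) := by
            rw [hA', hy, mul_pow, ← pow_mul, ← pow_mul, ← pow_add]
            push_cast
            congr 2
            ring
        _ ≤ A' * (y ^ L * 1) := by
            apply mul_le_mul_of_nonneg_left _ (by linarith)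
            exact mul_le_mul_of_nonneg_left (pow_le_one₀ hy0 hy1) (pow_nonneg hy0 _)
        _ = _ := by rw [mul_one]
    · exfalso
      apply hnot
      rw [hMm]
      refine ⟨Q, a, hQ1, hQ2, ?_⟩
      push_cast
      exact hQ3
  -- pointwise
  obtain ⟨χ, hχ⟩ : ∃ χ : ℕ → ℕ → ℝ, ∀ L t, χ L t = if Mm L t then 1 else 0 := ⟨_, fun _ _ => rfl⟩
  have hχ0 : ∀ L t, 0 ≤ χ L t := fun L t => by rw [hχ]; split_ifs <;> norm_num
  have hpt : ∀ t, ∀ L, 2 ≤ L → C * L ≤ k → W t ^ (2 * (s * q)) ≤ χ 2 t + ∑ l ∈ Ico 2 L, A' * y ^ l * χ (l + 1) t + A' * y ^ L := by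
    intro t L hL
    induction L, hL using Nat.le_induction with
    | base =>
      intro h8
      rw [Ico_self, sum_empty, add_zero]
      by_cases h : Mm 2 t
      · rw [hχ, if_pos h]
        have h1 := pow_le_one₀ (n := 2 * (s * q)) (hW0 t) (hW1 t)
        have h2 : 0 ≤ A' * y ^ 2 := mul_nonneg (by linarith) (pow_nonneg hy0 2)
        linarith
      · have h1 := hmin t 2 le_rfl h8 h
        have h2 := hχ0 2 t
        linarith
    | succ L hL ih =>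
      intro h8
      have h1 := ih (by
        refine le_trans ?_ h8
        exact Nat.mul_le_mul_left _ (by omega))
      rw [sum_Ico_succ_top hL]
      by_cases h : Mm (L + 1) t
      · rw [hχ (L + 1), if_pos h, mul_one]
        have h2 : 0 ≤ A' * y ^ (L + 1) := mul_nonneg (by linarith) (pow_nonneg hy0 (L + 1))
        linarith
      · have h1 := hmin t (L + 1) (by omega) h8 h
        have h2 := hχ0 2 t
        have h3 : 0 ≤ ∑ l ∈ Ico 2 L, A' * y ^ l * χ (l + 1) t :=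
          sum_nonneg fun l _ => mul_nonneg (mul_nonneg (by linarith) (pow_nonneg hy0 _)) (hχ0 _ _)
        have h4 : 0 ≤ A' * y ^ L * χ (L + 1) t := mul_nonneg (mul_nonneg (by linarith) (pow_nonneg hy0 _)) (hχ0 _ _)
        linarith
  obtain ⟨Lm, hLm⟩ : ∃ Lm, Lm = k / C := ⟨_, rfl⟩
  have hLm2 : 2 ≤ Lm := by rw [hLm, Nat.le_div_iff_mul_le (by omega)]; linarith
  have hLmk : C * Lm ≤ k := by rw [hLm]; exact Nat.mul_div_le k C
  have hkLm : k ≤ C * (Lm + 1) := by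
    rw [hLm]
    exact (Nat.lt_mul_div_succ k (by omega)).le
  have hsumχ : ∀ L, ∑ t ∈ range M, χ L t ≤ C₁ * b ^ (4 * C * L) := by
    intro L
    refine le_trans (le_of_eq ?_) (hcnt L)
    simp only [hχ]
    rw [sum_boole]
  have hsum := sum_le_sum (fun t (_ : t ∈ range M) => hpt t Lm hLm2 hLmk)
  refine hsum.trans ?_
  rw [sum_add_distrib, sum_add_distrib, sum_comm, sum_const, card_range, nsmul_eq_mul]
  have t1 : ∑ t ∈ range M, χ 2 t ≤ C₁ * b ^ (8 * C) := by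
    have := hsumχ 2
    have e8 : 4 * C * 2 = 8 * C := by ring
    rwa [e8] at this
  have t2 : ∑ l ∈ Ico 2 Lm, ∑ t ∈ range M, A' * y ^ l * χ (l + 1) t ≤ 2 * A' * C₁ * b ^ (4 * C) := by
    have h1 : ∀ l ∈ Ico 2 Lm, ∑ t ∈ range M, A' * y ^ l * χ (l + 1) t ≤ (A' * C₁ * (b : ℝ) ^ (4 * C)) * (1 / 2) ^ l := by
      intro l _
      rw [← mul_sum]
      calc A' * y ^ l * ∑ t ∈ range M, χ (l + 1) t ≤ A' * (1 / (b : ℝ) ^ T) ^ l * (C₁ * b ^ (4 * C * (l + 1))) := by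
            apply mul_le_mul _ (hsumχ _) (sum_nonneg fun t _ => hχ0 _ _) (by positivity)
            exact mul_le_mul_of_nonneg_left (pow_le_pow_left₀ hy0 hyb l) (by linarith)
        _ = (A' * C₁ * (b : ℝ) ^ (4 * C)) * ((b : ℝ) ^ (4 * C) / (b : ℝ) ^ T) ^ l := by
            rw [div_pow, div_pow, one_pow, mul_add, pow_add, pow_mul _ (4 * C) l, mul_one]
            ring
        _ ≤ _ := by
            apply mul_le_mul_of_nonneg_left _ (by positivity)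
            apply pow_le_pow_left₀ (by positivity)
            rw [div_le_div_iff₀ (by positivity) (by norm_num), one_mul]
            calc (b : ℝ) ^ (4 * C) * 2 ≤ (b : ℝ) ^ (4 * C) * b := mul_le_mul_of_nonneg_left hb2 (by positivity)
              _ = (b : ℝ) ^ (4 * C + 1) := by rw [pow_succ]
              _ ≤ (b : ℝ) ^ T := pow_le_pow_right₀ (by linarith) (by
                  rw [hT]
                  have : 0 ≤ (e + 2) * C := Nat.zero_le _
                  omega)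
    refine (sum_le_sum h1).trans ?_
    rw [← mul_sum]
    have h2 : ∑ l ∈ Ico 2 Lm, (1 / 2 : ℝ) ^ l ≤ 2 := by
      calc ∑ l ∈ Ico 2 Lm, (1 / 2 : ℝ) ^ l ≤ ∑ l ∈ range Lm, (1 / 2 : ℝ) ^ l := by
            apply sum_le_sum_of_subset_of_nonneg
            · intro l hl
              rw [mem_Ico] at hl
              exact mem_range.2 hl.2
            · intro l _ _
              positivity
        _ ≤ 2 := by
            rw [geom_sum_eq (by norm_num)]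
            have : (0 : ℝ) ≤ (1 / 2) ^ Lm := by positivity
            rw [div_le_iff_of_neg (by norm_num)]
            linarith
    calc (A' * C₁ * (b : ℝ) ^ (4 * C)) * ∑ l ∈ Ico 2 Lm, (1 / 2 : ℝ) ^ l ≤ (A' * C₁ * (b : ℝ) ^ (4 * C)) * 2 :=
          mul_le_mul_of_nonneg_left h2 (by positivity)
      _ = _ := by ring
  have t3 : (M : ℝ) * (A' * y ^ Lm) ≤ A' * F * b ^ ((e + 2) * C) := by
    calc (M : ℝ) * (A' * y ^ Lm) ≤ (F * (b : ℝ) ^ ((e + 2) * k)) * (A' * (1 / (b : ℝ) ^ T) ^ Lm) := by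
          apply mul_le_mul _ (mul_le_mul_of_nonneg_left (pow_le_pow_left₀ hy0 hyb Lm) (by linarith)) (by positivity) (by positivity)
          exact_mod_cast hM2
      _ ≤ (F * ((b : ℝ) ^ ((e + 2) * C * Lm) * (b : ℝ) ^ ((e + 2) * C))) * (A' * (1 / (b : ℝ) ^ T) ^ Lm) := by
          apply mul_le_mul_of_nonneg_right _ (by positivity)
          apply mul_le_mul_of_nonneg_left _ (Nat.cast_nonneg _)
          rw [← pow_add]
          apply pow_le_pow_right₀ (by linarith)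
          calc (e + 2) * k ≤ (e + 2) * (C * (Lm + 1)) := Nat.mul_le_mul_left _ hkLm
            _ = _ := by ring
      _ = (A' * F * (b : ℝ) ^ ((e + 2) * C)) * ((b : ℝ) ^ ((e + 2) * C) / (b : ℝ) ^ T) ^ Lm := by
          rw [div_pow, div_pow, one_pow, ← pow_mul]
          ring
      _ ≤ (A' * F * (b : ℝ) ^ ((e + 2) * C)) * 1 := by
          apply mul_le_mul_of_nonneg_left _ (by positivity)
          apply pow_le_one₀ (by positivity)
          rw [div_le_one (by positivity)]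
          exact pow_le_pow_right₀ (by linarith) (by omega)
      _ = _ := mul_one _
  have t4 : (0 : ℝ) ≤ F * b ^ ((e + 2) * (2 * C)) := by positivity
  push_cast
  linarith

end Pool.Agent.HP25.PD
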