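import Pool.Agent.HP25.PD.C
import Pool.Agent.TH935.GF2
import Pool.Agent.TH872.Sq.W13
import Pool.Agent.TH872.Sq.W19

set_option autoImplicit false

/-! The additive energy of integers close to the values of a real polynomial at integers with restricted digits. -/

namespace Pool.Agent.HP25.PD
open Finset
open Pool.Agent.H807R2.Dav
open Pool.Agent.TH872.Sq
open Pool.Agent.TH935.GF (En)

lemma big_sum (T : ℕ) (x : ℝ) (hx : |x| * T ≤ 1 / 6) : (T : ℝ) / 2 ≤ ‖∑ t ∈ range T, ee ((t : ℝ) * x)‖ := by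
  refine le_trans ?_ (Complex.re_le_norm _)
  rw [Complex.re_sum]
  have h : ∀ t ∈ range T, (1 / 2 : ℝ) ≤ (ee ((t : ℝ) * x)).re := by
    intro t ht
    rw [mem_range] at ht
    rw [ee_eq, Complex.exp_ofReal_mul_I_re]
    have htT : (t : ℝ) ≤ T := by exact_mod_cast ht.le
    have hpi := Real.pi_pos
    have h1 : |2 * Real.pi * ((t : ℝ) * x)| ≤ Real.pi / 3 := by
      rw [abs_mul, abs_of_pos (by positivity : (0 : ℝ) < 2 * Real.pi), abs_mul, abs_of_nonneg (Nat.cast_nonneg t)]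
      have h2 : (t : ℝ) * |x| ≤ 1 / 6 := by
        refine le_trans ?_ hx
        rw [mul_comm]
        exact mul_le_mul_of_nonneg_left htT (abs_nonneg _)
      nlinarith
    rw [← Real.cos_abs, ← Real.cos_pi_div_three]
    exact Real.cos_le_cos_of_nonneg_of_le_pi (abs_nonneg _) (by linarith) h1
  calc (T : ℝ) / 2 = ∑ _t ∈ range T, (1 / 2 : ℝ) := by rw [sum_const, card_range, nsmul_eq_mul]; ring
    _ ≤ _ := sum_le_sum h

lemma ee_sum' {α : Type} (s : Finset α) (f : α → ℝ) : ∏ j ∈ s, ee (f j) = ee (∑ j ∈ s, f j) := by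
  classical
  induction s using Finset.induction_on with
  | empty => rw [prod_empty, sum_empty, ee_zero]
  | insert a s ha ih => rw [prod_insert ha, sum_insert ha, ih, ee_add]

lemma tuples {ι : Type} [Fintype ι] (p : ℕ) (g : ι → ℝ) (s : ℝ) :
    ((‖∑ i, ee (s * g i)‖ ^ (2 * p) : ℝ) : ℂ) =
      ∑ q : (Fin p → ι) × (Fin p → ι), ee (s * (∑ j, g (q.1 j) - ∑ j, g (q.2 j))) := by
  classical
  have h1 : (∑ i, ee (s * g i)) ^ p = ∑ a : Fin p → ι, ee (s * ∑ j, g (a j)) := by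
    rw [Fintype.sum_pow]
    apply sum_congr rfl
    intro a _
    rw [ee_sum', mul_sum]
  have h2 : (starRingEnd ℂ) ((∑ i, ee (s * g i)) ^ p) = ∑ a : Fin p → ι, ee (-(s * ∑ j, g (a j))) := by
    rw [h1, map_sum]
    apply sum_congr rfl
    intro a _
    rw [Pool.Agent.H373R2.T7.conj_ee]
  have h3 : ((‖∑ i, ee (s * g i)‖ ^ (2 * p) : ℝ) : ℂ) = (∑ i, ee (s * g i)) ^ p * (starRingEnd ℂ) ((∑ i, ee (s * g i)) ^ p) := by
    rw [map_pow, ← mul_pow, Complex.mul_conj', pow_mul]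
    push_cast
    rfl
  rw [h3, h2, h1, sum_mul_sum, Fintype.sum_prod_type]
  apply sum_congr rfl
  intro a _
  apply sum_congr rfl
  intro a' _
  rw [← ee_add]
  congr 1
  ring

lemma even_norm {ι : Type} [Fintype ι] (g : ι → ℝ) (s : ℝ) : ‖∑ i, ee (-s * g i)‖ = ‖∑ i, ee (s * g i)‖ := by
  rw [← Complex.norm_conj (∑ i, ee (s * g i)), map_sum]
  congr 1
  apply sum_congr rfl
  intro i _
  rw [Pool.Agent.H373R2.T7.conj_ee]
  congr 1
  ring

lemma fold (T : ℕ) (H : ℤ → ℝ) (hH0 : ∀ s, 0 ≤ H s) (hH : ∀ s, H (-s) = H s) :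
    ∑ t ∈ range T, ∑ t' ∈ range T, H ((t : ℤ) - t') ≤ 2 * T * ∑ s ∈ range T, H s := by
  classical
  have h1 : ∀ t ∈ range T, ∑ t' ∈ range T, H ((t : ℤ) - t') ≤ 2 * ∑ s ∈ range T, H s := by
    intro t ht
    rw [mem_range] at ht
    rw [← sum_filter_add_sum_filter_not (range T) (fun t' => t' ≤ t), two_mul]
    apply add_le_add
    · have e1 : ∑ t' ∈ (range T).filter (fun t' => t' ≤ t), H ((t : ℤ) - t') =
          ∑ s ∈ ((range T).filter (fun t' => t' ≤ t)).image (fun t' => t - t'), H s := by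
        rw [sum_image]
        · apply sum_congr rfl
          intro t' ht'
          rw [mem_filter] at ht'
          congr 1
          omega
        · intro x hx y hy hxy
          rw [mem_coe, mem_filter] at hx hy
          simp only at hxy
          omega
      rw [e1]
      apply sum_le_sum_of_subset_of_nonneg
      · intro s hs
        rw [mem_image] at hs
        obtain ⟨t', ht', rfl⟩ := hs
        rw [mem_range]
        omega
      · intro s _ _
        exact hH0 s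
    · have e1 : ∑ t' ∈ (range T).filter (fun t' => ¬ t' ≤ t), H ((t : ℤ) - t') =
          ∑ s ∈ ((range T).filter (fun t' => ¬ t' ≤ t)).image (fun t' => t' - t), H s := by
        rw [sum_image]
        · apply sum_congr rfl
          intro t' ht'
          rw [mem_filter] at ht'
          rw [← hH]
          congr 1
          omega
        · intro x hx y hy hxy
          rw [mem_coe, mem_filter] at hx hy
          simp only at hxy
          omega
      rw [e1]
      apply sum_le_sum_of_subset_of_nonneg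
      · intro s hs
        rw [mem_image] at hs
        obtain ⟨t', ht', rfl⟩ := hs
        rw [mem_filter, mem_range] at ht'
        rw [mem_range]
        omega
      · intro s _ _
        exact hH0 s
  refine (sum_le_sum h1).trans (le_of_eq ?_)
  rw [sum_const, card_range, nsmul_eq_mul]
  ring

/-- the energy of integers close to real numbers is bounded by a moment of the exponential sum -/
lemma En_near {ι : Type} [Fintype ι] (p : ℕ) (v : ι → ℤ) (g : ι → ℝ) (hv : ∀ i, |(v i : ℝ) - g i| ≤ 1) (T M : ℕ)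
    (hT : 1 ≤ T) (hM1 : 1 ≤ M) (hM : 12 * p * T ≤ M) :
    (En p v : ℝ) * T ≤ 8 * ∑ t ∈ range T, ‖∑ i, ee ((t : ℝ) / M * g i)‖ ^ (2 * p) := by
  classical
  have hTr : (1 : ℝ) ≤ T := by exact_mod_cast hT
  have hMr : (1 : ℝ) ≤ M := by exact_mod_cast hM1
  obtain ⟨Y, hY⟩ : ∃ Y : (Fin p → ι) × (Fin p → ι) → ℝ, ∀ q, Y q = ∑ j, g (q.1 j) - ∑ j, g (q.2 j) := ⟨_, fun _ => rfl⟩
  obtain ⟨H, hH⟩ : ∃ H : ℤ → ℝ, ∀ s, H s = ‖∑ i, ee ((s : ℝ) / M * g i)‖ ^ (2 * p) := ⟨_, fun _ => rfl⟩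
  -- lower bound
  have h1 : (En p v : ℝ) * ((T : ℝ) / 2) ^ 2 ≤ ∑ q : (Fin p → ι) × (Fin p → ι), ‖∑ t ∈ range T, ee ((t : ℝ) * (Y q / M))‖ ^ 2 := by
    have e1 : (En p v : ℝ) = ∑ q : (Fin p → ι) × (Fin p → ι), if ∑ j, v (q.1 j) = ∑ j, v (q.2 j) then (1 : ℝ) else 0 := by
      unfold En
      rw [Nat.card_eq_fintype_card, Fintype.card_subtype, sum_boole]
    rw [e1, sum_mul]
    apply sum_le_sum
    intro q _
    split_ifs with hq
    · rw [one_mul]
      apply pow_le_pow_left₀ (by positivity)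
      apply big_sum
      have hYq : |Y q| ≤ 2 * p := by
        have h2 : Y q = ∑ j, (g (q.1 j) - v (q.1 j)) - ∑ j, (g (q.2 j) - v (q.2 j)) := by
          rw [hY, sum_sub_distrib, sum_sub_distrib]
          have h3 : ∑ j, (v (q.1 j) : ℝ) = ∑ j, (v (q.2 j) : ℝ) := by exact_mod_cast hq
          rw [h3]
          ring
        have h4 : ∀ a : Fin p → ι, |∑ j, (g (a j) - v (a j))| ≤ p := by
          intro a
          refine (abs_sum_le_sum_abs _ _).trans ?_
          calc ∑ j, |g (a j) - v (a j)| ≤ ∑ _j : Fin p, (1 : ℝ) := by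
                apply sum_le_sum
                intro j _
                rw [abs_sub_comm]
                exact hv _
            _ = p := by simp
        rw [h2]
        refine (abs_sub _ _).trans ?_
        have := h4 q.1
        have := h4 q.2
        linarith
      rw [abs_div, abs_of_pos (by linarith : (0 : ℝ) < M), div_mul_eq_mul_div, div_le_iff₀ (by linarith)]
      have hMM : (12 * p * T : ℝ) ≤ M := by exact_mod_cast hM
      nlinarith
    · rw [zero_mul]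
      positivity
  -- evaluation
  have h2 : ∑ q : (Fin p → ι) × (Fin p → ι), ‖∑ t ∈ range T, ee ((t : ℝ) * (Y q / M))‖ ^ 2 =
      ∑ t ∈ range T, ∑ t' ∈ range T, H ((t : ℤ) - t') := by
    apply Complex.ofReal_injective
    push_cast
    have f1 : ∀ q, ((‖∑ t ∈ range T, ee ((t : ℝ) * (Y q / M))‖ : ℂ)) ^ 2 =
        ∑ t ∈ range T, ∑ t' ∈ range T, ee ((((t : ℤ) - t' : ℤ) : ℝ) / M * Y q) := by
      intro q
      rw [← Complex.mul_conj', map_sum, sum_mul_sum]
      apply sum_congr rfl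
      intro t _
      apply sum_congr rfl
      intro t' _
      rw [Pool.Agent.H373R2.T7.conj_ee, ← ee_add]
      congr 1
      push_cast
      ring
    simp only [f1]
    rw [sum_comm]
    apply sum_congr rfl
    intro t _
    rw [sum_comm]
    apply sum_congr rfl
    intro t' _
    rw [hH, tuples]
    apply sum_congr rfl
    intro q _
    rw [hY]
  rw [h2] at h1
  have h3 := fold T H (fun s => by rw [hH]; positivity) (fun s => by
    rw [hH, hH]
    congr 1
    have e1 : (((-s : ℤ) : ℝ) / M) = -((s : ℝ) / M) := by push_cast; ring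
    rw [e1]
    exact even_norm g _)
  have h4 := h1.trans h3
  have e2 : ∑ s ∈ range T, H s = ∑ t ∈ range T, ‖∑ i, ee ((t : ℝ) / M * g i)‖ ^ (2 * p) := by
    apply sum_congr rfl
    intro s _
    rw [hH]
    push_cast
    rfl
  rw [e2] at h4
  obtain ⟨X, hX⟩ : ∃ X, X = ∑ t ∈ range T, ‖∑ i, ee ((t : ℝ) / M * g i)‖ ^ (2 * p) := ⟨_, rfl⟩
  rw [← hX] at h4 ⊢
  have h5 : ((En p v : ℝ) * T) * T ≤ (8 * X) * T := by nlinarith
  exact le_of_mul_le_mul_right h5 (by linarith)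

/-- **Integers close to the values of a real polynomial of degree at least two at integers with restricted digits have
nearly minimal energy.** -/
theorem poly_energy (b : ℕ) (hb : 2 ≤ b) (e : ℕ) : ∃ p : ℕ, 1 ≤ p ∧ ∀ κ₁ κ₂ : ℕ, ∃ Cf : ℝ, 0 < Cf ∧ ∀ k : ℕ,
    ∀ D : ℕ → Finset ℕ, (∀ i < k, D i ⊆ range b ∧ 2 ≤ (D i).card) → ∀ (κ : ℝ) (f : ℝ → ℝ), |κ| ≤ κ₁ → 1 ≤ κ₂ * |κ| →
    Pl e κ f → ∀ v : {n // n ∈ SD b D k} → ℤ, (∀ i, |(v i : ℝ) - f (i.1 : ℕ)| ≤ 1) →
    (En p v : ℝ) * ((b ^ ((e + 2) * k) : ℕ) : ℝ) ≤ Cf * (Fintype.card {n // n ∈ SD b D k} : ℝ) ^ (2 * p) := by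
  classical
  obtain ⟨p, hp, hmom⟩ := moment b hb (1 / 2) (by norm_num) e
  refine ⟨p, hp, fun κ₁ κ₂ => ?_⟩
  obtain ⟨Cf, hCf, hm⟩ := hmom (12 * p) κ₁ κ₂ (by omega)
  refine ⟨8 * Cf, by positivity, fun k D hD κ f hκ1 hκ2 hf v hv => ?_⟩
  obtain ⟨N, hN⟩ : ∃ N, N = b ^ ((e + 2) * k) := ⟨_, rfl⟩
  have hN1 : 1 ≤ N := by rw [hN]; exact Nat.one_le_pow _ _ (by omega)
  obtain ⟨M, hM⟩ : ∃ M, M = 12 * p * N := ⟨_, rfl⟩
  have hMN : N ≤ M := by rw [hM]; exact Nat.le_mul_of_pos_left _ (by omega)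
  have hM1 : 1 ≤ M := hN1.trans hMN
  have hcard := SD_card_pos b hb D k hD
  have hfc : Fintype.card {n // n ∈ SD b D k} = (SD b D k).card := Fintype.card_coe _
  have h1 := En_near p v (fun i => f (i.1 : ℕ)) hv N M hN1 hM1 (by rw [hM])
  have h2 := hm k M (by rw [← hN]; exact hMN) (by rw [hM, hN]) (wD D k) (dig_wD b hb D k hD) 0 κ f hκ1 hκ2 hf
  obtain ⟨Z, hZ⟩ : ∃ Z : ℝ, Z = ((SD b D k).card : ℝ) := ⟨_, rfl⟩
  rw [← hZ] at hcard
  rw [← hN, hfc, ← hZ]
  refine h1.trans ?_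
  have h3 : ∀ t : ℕ, ‖∑ i : {n // n ∈ SD b D k}, ee ((t : ℝ) / M * f (i.1 : ℕ))‖ ^ (2 * p) =
      Z ^ (2 * p) * ‖∑ n ∈ range (b ^ k), ((P b (wD D k) 0 k n : ℝ) : ℂ) * ee ((t : ℝ) / M * f n)‖ ^ (2 * p) := by
    intro t
    have e1 : ∑ i : {n // n ∈ SD b D k}, ee ((t : ℝ) / M * f (i.1 : ℕ)) =
        ∑ n ∈ SD b D k, ee ((t : ℝ) / M * f (n : ℕ)) := by
      rw [← sum_coe_sort (SD b D k) (fun n => ee ((t : ℝ) / M * f (n : ℕ)))]
    have e3 : ∑ n ∈ range (b ^ k), ((P b (wD D k) 0 k n : ℝ) : ℂ) * ee ((t : ℝ) / M * f n) =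
        (((1 / Z : ℝ)) : ℂ) * ∑ n ∈ SD b D k, ee ((t : ℝ) / M * f (n : ℕ)) := by
      have h4 : ∀ n ∈ range (b ^ k), ((P b (wD D k) 0 k n : ℝ) : ℂ) * ee ((t : ℝ) / M * f n) =
          if n ∈ SD b D k then ((1 / Z : ℝ) : ℂ) * ee ((t : ℝ) / M * f n) else 0 := by
        intro n hn
        rw [P_wD b hb D k hD n hn, ← hZ]
        split_ifs
        · rfl
        · simp
      rw [sum_congr rfl h4, ← sum_filter, mul_sum]
      apply sum_congr _ fun _ _ => rfl
      ext n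
      rw [mem_filter]
      refine ⟨fun h => h.2, fun h => ⟨?_, h⟩⟩
      unfold SD at h
      exact (mem_filter.1 h).1
    rw [e1, e3, norm_mul, mul_pow, ← mul_assoc]
    have e4 : ‖(((1 / Z : ℝ)) : ℂ)‖ = 1 / Z := by
      rw [Complex.norm_real, Real.norm_eq_abs, abs_of_pos (by positivity)]
    rw [e4, ← mul_pow, mul_one_div_cancel hcard.ne', one_pow, one_mul]
  simp only [h3]
  rw [← mul_sum]
  have h5 : ∑ t ∈ range N, ‖∑ n ∈ range (b ^ k), ((P b (wD D k) 0 k n : ℝ) : ℂ) * ee ((t : ℝ) / M * f n)‖ ^ (2 * p) ≤ Cf := by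
    refine le_trans ?_ h2
    apply sum_le_sum_of_subset_of_nonneg
    · exact range_subset_range.2 hMN
    · intro t _ _
      positivity
  calc 8 * (Z ^ (2 * p) * ∑ t ∈ range N, ‖∑ n ∈ range (b ^ k), ((P b (wD D k) 0 k n : ℝ) : ℂ) * ee ((t : ℝ) / M * f n)‖ ^ (2 * p)) ≤
      8 * (Z ^ (2 * p) * Cf) := by
        apply mul_le_mul_of_nonneg_left _ (by norm_num)
        exact mul_le_mul_of_nonneg_left h5 (by positivity)
    _ = _ := by ring

end Pool.Agent.HP25.PD
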